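import Mathlib
import Pool.Agent.W500.CS.Stm2

/-!
MP_46692b_an, project CQ, part G3: semiconvexity under a holomorphic change of variables.
-/

set_option autoImplicit false

open Metric Set Filter Topology

namespace Pool.Agent.W369.CQ.SCOMP

open Pool.Agent.W500.CS

lemma taylor1 {E : Type*} [NormedAddCommGroup E] [NormedSpace ℝ E] (f : ℂ → E) (S : Set ℂ)
    (hS : Convex ℝ S) (K : NNReal) (hd : ∀ y ∈ S, DifferentiableAt ℝ f y)
    (hK : LipschitzOnWith K (fderiv ℝ f) S) (t s : ℂ) (ht : t ∈ S) (hs : s ∈ S) :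
    ‖f s - f t - fderiv ℝ f t (s - t)‖ ≤ K * ‖s - t‖ * ‖s - t‖ := by
  have hseg : segment ℝ t s ⊆ S := hS.segment_subset ht hs
  apply Convex.norm_image_sub_le_of_norm_hasFDerivWithin_le' (s := segment ℝ t s)
    (f' := fun y => fderiv ℝ f y) (fun y hy => (hd y (hseg hy)).hasFDerivAt.hasFDerivWithinAt)
    _ (convex_segment t s) (left_mem_segment ℝ t s) (right_mem_segment ℝ t s)
  intro y hy
  have h1 := hK.dist_le_mul y (hseg hy) t ht
  rw [dist_eq_norm, dist_eq_norm] at h1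
  refine h1.trans ?_
  apply mul_le_mul_of_nonneg_left _ K.2
  exact norm_sub_le_of_mem_segment hy

/-- second differences of a function of class `C²` -/
lemma second_diff {E : Type*} [NormedAddCommGroup E] [NormedSpace ℝ E] (f : ℂ → E) (s₀ : ℂ)
    (hf : ContDiffAt ℝ 2 f s₀) :
    ∃ M : ℝ, 0 ≤ M ∧ ∃ r > 0, ∀ s ∈ ball s₀ r, ∀ u ∈ ball s₀ r, ∀ a b : ℝ, 0 ≤ a → 0 ≤ b →
      a + b = 1 → ‖f (a • s + b • u) - (a • f s + b • f u)‖ ≤ M * (a * b * ‖s - u‖ ^ 2) := by
  have h1 : ContDiffAt ℝ 1 (fderiv ℝ f) s₀ := hf.fderiv_right (by norm_num)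
  obtain ⟨K, t, ht, hK⟩ := h1.exists_lipschitzOnWith
  have h2 : ∀ᶠ y in 𝓝 s₀, ContDiffAt ℝ 2 f y := hf.eventually (by simp)
  obtain ⟨r, hr, hrt⟩ := Metric.mem_nhds_iff.mp (Filter.inter_mem ht h2)
  refine ⟨K, K.2, r, hr, ?_⟩
  intro s hs u hu a b ha hb hab
  have hc : Convex ℝ (ball s₀ r) := convex_ball s₀ r
  have hm : a • s + b • u ∈ ball s₀ r := hc hs hu ha hb hab
  have hd : ∀ y ∈ ball s₀ r, DifferentiableAt ℝ f y := by
    intro y hy
    have h3 : ContDiffAt ℝ 2 f y := (hrt hy).2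
    exact h3.differentiableAt (by norm_num)
  have hK' : LipschitzOnWith K (fderiv ℝ f) (ball s₀ r) := hK.mono (fun y hy => (hrt hy).1)
  have e1 := taylor1 f _ hc K hd hK' (a • s + b • u) s hm hs
  have e2 := taylor1 f _ hc K hd hK' (a • s + b • u) u hm hu
  have i1 : s - (a • s + b • u) = b • (s - u) := by
    have : a = 1 - b := by linarith
    rw [this]
    module
  have i2 : u - (a • s + b • u) = -(a • (s - u)) := by
    have : b = 1 - a := by linarith
    rw [this]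
    module
  set z := a • s + b • u with hz
  have n1 : ‖s - z‖ = b * ‖s - u‖ := by rw [i1, norm_smul, Real.norm_of_nonneg hb]
  have n2 : ‖u - z‖ = a * ‖s - u‖ := by rw [i2, norm_neg, norm_smul, Real.norm_of_nonneg ha]
  have key : f z - (a • f s + b • f u) =
      -(a • (f s - f z - fderiv ℝ f z (s - z)) + b • (f u - f z - fderiv ℝ f z (u - z))) := by
    rw [i1, i2, map_neg, map_smul, map_smul]
    have : b = 1 - a := by linarith
    rw [this]
    module
  rw [key, norm_neg]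
  calc ‖a • (f s - f z - fderiv ℝ f z (s - z)) + b • (f u - f z - fderiv ℝ f z (u - z))‖
      ≤ a * ‖f s - f z - fderiv ℝ f z (s - z)‖ + b * ‖f u - f z - fderiv ℝ f z (u - z)‖ := by
        refine (norm_add_le _ _).trans (le_of_eq ?_)
        rw [norm_smul, norm_smul, Real.norm_of_nonneg ha, Real.norm_of_nonneg hb]
    _ ≤ a * (K * ‖s - z‖ * ‖s - z‖) + b * (K * ‖u - z‖ * ‖u - z‖) := by
        gcongr
    _ = (K : ℝ) * (a * b * ‖s - u‖ ^ 2) * (a + b) := by
        rw [n1, n2]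
        ring
    _ = (K : ℝ) * (a * b * ‖s - u‖ ^ 2) := by rw [hab, mul_one]

lemma norm_sq_comb (s u : ℂ) (a b : ℝ) (hab : a + b = 1) :
    ‖a • s + b • u‖ ^ 2 = a * ‖s‖ ^ 2 + b * ‖u‖ ^ 2 - a * b * ‖s - u‖ ^ 2 := by
  have hb : b = 1 - a := by linarith
  subst hb
  simp only [Complex.sq_norm, Complex.normSq_apply, Complex.add_re, Complex.add_im,
    Complex.sub_re, Complex.sub_im, Complex.real_smul, Complex.mul_re, Complex.mul_im,
    Complex.ofReal_re, Complex.ofReal_im]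
  ring

lemma convex_iff (x : ℂ) (ε C : ℝ) (F : ℂ → ℝ) :
    ConvexOn ℝ (ball x ε) (fun y => F y + C * ‖y‖ ^ 2) ↔
      ∀ s ∈ ball x ε, ∀ u ∈ ball x ε, ∀ a b : ℝ, 0 ≤ a → 0 ≤ b → a + b = 1 →
        F (a • s + b • u) ≤ a * F s + b * F u + C * (a * b * ‖s - u‖ ^ 2) := by
  constructor
  · intro h s hs u hu a b ha hb hab
    have h1 := h.2 hs hu ha hb hab
    simp only [smul_eq_mul] at h1
    rw [norm_sq_comb s u a b hab] at h1
    nlinarith
  · intro h
    refine ⟨convex_ball x ε, ?_⟩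
    intro s hs u hu a b ha hb hab
    have h1 := h s hs u hu a b ha hb hab
    simp only [smul_eq_mul]
    rw [norm_sq_comb s u a b hab]
    nlinarith

theorem main : S_SCOMP := by
  intro Ω W u H g hW hu hg hmap hH s₀ hs₀
  obtain ⟨e, he, C, hball, hconv⟩ := hu (g s₀) (hmap hs₀)
  have hWn : W ∈ 𝓝 s₀ := hW.mem_nhds hs₀
  have hgC : ContDiffAt ℝ 2 g s₀ :=
    ((hg.analyticAt hWn).contDiffAt (n := 2)).restrict_scalars ℝ
  have hHC : ContDiffAt ℝ 2 H s₀ := hH.contDiffAt hWn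
  have hNC : ContDiffAt ℝ 2 (fun s => ‖g s‖ ^ 2) s₀ := hgC.norm_sq ℝ
  obtain ⟨M1, hM1, r1, hr1, k1⟩ := second_diff g s₀ hgC
  obtain ⟨M2, hM2, r2, hr2, k2⟩ := second_diff H s₀ hHC
  obtain ⟨M3, hM3, r3, hr3, k3⟩ := second_diff (fun s => ‖g s‖ ^ 2) s₀ hNC
  -- Lipschitz bound for the convex function
  have hll : LocallyLipschitzOn (ball (g s₀) e) (fun y => u y + C * ‖y‖ ^ 2) :=
    hconv.locallyLipschitzOn isOpen_ball
  obtain ⟨L, t, ht, hL⟩ := hll (mem_ball_self he)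
  rw [isOpen_ball.nhdsWithin_eq (mem_ball_self he)] at ht
  obtain ⟨e', he', het⟩ := Metric.mem_nhds_iff.mp (Filter.inter_mem ht (ball_mem_nhds (g s₀) he))
  have hgcont : ContinuousAt g s₀ := hgC.continuousAt
  have hpre : g ⁻¹' (ball (g s₀) e') ∈ 𝓝 s₀ := hgcont (ball_mem_nhds _ he')
  obtain ⟨r4, hr4, h4⟩ := Metric.mem_nhds_iff.mp (Filter.inter_mem hpre hWn)
  set r := min (min r1 r2) (min r3 r4) with hr
  have hrpos : 0 < r := by
    rw [hr]
    exact lt_min (lt_min hr1 hr2) (lt_min hr3 hr4)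
  have b1 : ball s₀ r ⊆ ball s₀ r1 :=
    ball_subset_ball ((min_le_left _ _).trans (min_le_left _ _))
  have b2 : ball s₀ r ⊆ ball s₀ r2 :=
    ball_subset_ball ((min_le_left _ _).trans (min_le_right _ _))
  have b3 : ball s₀ r ⊆ ball s₀ r3 :=
    ball_subset_ball ((min_le_right _ _).trans (min_le_left _ _))
  have b4 : ball s₀ r ⊆ ball s₀ r4 :=
    ball_subset_ball ((min_le_right _ _).trans (min_le_right _ _))
  refine ⟨r, hrpos, L * M1 + |C| * M3 + M2, fun y hy => (h4 (b4 hy)).2, ?_⟩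
  rw [convex_iff]
  intro s hs v hv a b ha hb hab
  have hm : a • s + b • v ∈ ball s₀ r := (convex_ball s₀ r) hs hv ha hb hab
  set z := a • s + b • v with hz
  set q := a * b * ‖s - v‖ ^ 2 with hq
  have gs : g s ∈ ball (g s₀) e' := (h4 (b4 hs)).1
  have gv : g v ∈ ball (g s₀) e' := (h4 (b4 hv)).1
  have gz : g z ∈ ball (g s₀) e' := (h4 (b4 hm)).1
  have gc : a • g s + b • g v ∈ ball (g s₀) e' := (convex_ball _ _) gs gv ha hb hab
  have j1 := k1 s (b1 hs) v (b1 hv) a b ha hb hab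
  have j2 := k2 s (b2 hs) v (b2 hv) a b ha hb hab
  have j3 := k3 s (b3 hs) v (b3 hv) a b ha hb hab
  rw [← hz, ← hq] at j1 j2 j3
  -- convexity at the combination of the values
  have c1 := hconv.2 (het gs).2 (het gv).2 ha hb hab
  have c2 := hL.dist_le_mul (g z) (het gz).1 (a • g s + b • g v) (het gc).1
  rw [Real.dist_eq, dist_eq_norm] at c2
  have c3 := (abs_le.mp c2).2
  have c4 : (L : ℝ) * ‖g z - (a • g s + b • g v)‖ ≤ L * (M1 * q) :=
    mul_le_mul_of_nonneg_left j1 L.2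
  rw [Real.norm_eq_abs] at j2 j3
  have d2 := (abs_le.mp j2).2
  have d3 : C * (a * ‖g s‖ ^ 2 + b * ‖g v‖ ^ 2 - ‖g z‖ ^ 2) ≤ |C| * (M3 * q) := by
    refine (le_abs_self _).trans ?_
    rw [abs_mul]
    apply mul_le_mul_of_nonneg_left _ (abs_nonneg C)
    rw [abs_sub_comm]
    exact j3
  simp only [smul_eq_mul] at c1 c3 d2 d3
  nlinarith

end Pool.Agent.W369.CQ.SCOMP
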